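import Mathlib

set_option autoImplicit false

/-!
The predicate: some complex number of absolute value `b₀ t ^ 2` and integral trace has the prescribed
`p`-th power trace; it is used for the parameters `t` where the criterion fails.
-/

namespace Pool.Agent.Lib.MP3650db.N2

/-- `t` is bad for `(p, b₀, v, κ, s, g)` -/
def Bad (p : ℕ) (b₀ v κ s g t : ℤ) : Prop :=
  ∃ (α : ℂ) (a : ℤ), 2 * α.re = a ∧ Complex.normSq α = (((b₀ * t ^ 2) ^ 2 : ℤ) : ℝ) ∧
    (v : ℝ) ^ 2 * (2 * (α ^ p).re) =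
      ((s * (g + κ * t ^ p) ^ 2 - 2 * v ^ 2 * (b₀ * t ^ 2) ^ p : ℤ) : ℝ)

end Pool.Agent.Lib.MP3650db.N2
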