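import Mathlib
import Pool.Agent.Lib.MP_3650db_nt.N2.Bad

set_option autoImplicit false

/-!
Infinitely many parameters `t` for which two explicit numbers are not `p`-th powers.
-/

namespace Pool.Agent.Lib.MP3650db.N2

open ComplexConjugate

/-- the Lucas sequence with the parameters `a`, `B` -/
def luc (a B : ℤ) : ℕ → ℤ
  | 0 => 2
  | 1 => a
  | n + 2 => a * luc a B (n + 1) - B * luc a B n

theorem luc_re (α : ℂ) (a B : ℤ) (ha : 2 * α.re = a) (hB : Complex.normSq α = B) (n : ℕ) :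
    2 * (α ^ n).re = luc a B n := by
  have hsq : α ^ 2 = a * α - B := by
    have h1 : α + conj α = (a : ℂ) := by
      rw [Complex.add_conj, ha]
      simp
    have h2 : α * conj α = (B : ℂ) := by
      rw [Complex.mul_conj, hB]
      simp
    linear_combination α * h1 - h2
  induction n using Nat.strong_induction_on with
  | _ n ih =>
    match n with
    | 0 => simp [luc]
    | 1 => simpa [luc] using ha
    | m + 2 =>
      have h1 := ih (m + 1) (by omega)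
      have h2 := ih m (by omega)
      have e : α ^ (m + 2) = a * α ^ (m + 1) - B * α ^ m := by
        rw [pow_add, hsq]
        ring
      have e1 : (α ^ (m + 2)).re = a * (α ^ (m + 1)).re - B * (α ^ m).re := by
        rw [e]
        simp
      rw [e1, luc]
      push_cast
      rw [← h1, ← h2]
      ring

theorem luc_mod (a B : ℤ) (n : ℕ) : B ∣ luc a B (n + 1) - a ^ (n + 1) := by
  induction n with
  | zero => simp [luc]
  | succ n ih =>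
    obtain ⟨q, hq⟩ := ih
    refine ⟨a * q - luc a B n, ?_⟩
    rw [luc]
    linear_combination a * hq

theorem re_bound (α : ℂ) (a b : ℝ) (hb : 0 ≤ b) (ha : 2 * α.re = a)
    (hB : Complex.normSq α = b ^ 2) (p : ℕ) (hp : Odd p) :
    |2 * (α ^ p).re| ≤ p * b ^ (p - 1) * |a| := by
  have hn : ‖α‖ = b := by
    rw [Complex.normSq_eq_norm_sq] at hB
    exact (sq_eq_sq₀ (norm_nonneg _) hb).1 hB
  have h1 : α + conj α = (a : ℂ) := by
    rw [Complex.add_conj, ha]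
  have h2 : α ^ p + (conj α) ^ p = ((2 * (α ^ p).re : ℝ) : ℂ) := by
    rw [← map_pow, Complex.add_conj]
  have h3 := Commute.geom_sum₂_mul (Commute.all α (-conj α)) p
  rw [sub_neg_eq_add, h1, hp.neg_pow, sub_neg_eq_add, h2] at h3
  have h4 : |2 * (α ^ p).re| = ‖((2 * (α ^ p).re : ℝ) : ℂ)‖ := by
    rw [Complex.norm_real, Real.norm_eq_abs]
  rw [h4, ← h3, norm_mul, Complex.norm_real, Real.norm_eq_abs]
  refine mul_le_mul_of_nonneg_right ?_ (abs_nonneg _)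
  refine (norm_sum_le _ _).trans ?_
  have h5 : ∀ i ∈ Finset.range p, ‖α ^ i * (-conj α) ^ (p - 1 - i)‖ ≤ b ^ (p - 1) := by
    intro i hi
    rw [Finset.mem_range] at hi
    rw [norm_mul, norm_pow, norm_pow, norm_neg, Complex.norm_conj, hn, ← pow_add]
    rw [show i + (p - 1 - i) = p - 1 by omega]
  refine (Finset.sum_le_sum h5).trans ?_
  rw [Finset.sum_const, Finset.card_range, nsmul_eq_mul]

theorem abs_tr_le (α : ℂ) (a b : ℝ) (hb : 0 ≤ b) (ha : 2 * α.re = a)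
    (hB : Complex.normSq α = b ^ 2) : |a| ≤ 2 * b := by
  have hn : ‖α‖ = b := by
    rw [Complex.normSq_eq_norm_sq] at hB
    exact (sq_eq_sq₀ (norm_nonneg _) hb).1 hB
  rw [← ha, abs_mul, abs_two, ← hn]
  exact mul_le_mul_of_nonneg_left (Complex.abs_re_le_norm α) (by norm_num)

/-- the `p`-th power map is injective modulo `l ^ k` -/
theorem pow_inj (p l k : ℕ) (hl : l.Prime) (hlp : Nat.Coprime l p)
    (hlp' : Nat.Coprime (l - 1) p) (hk : 0 < k) (x y : ℤ) (hx : ¬ (l : ℤ) ∣ x)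
    (h : ((l ^ k : ℕ) : ℤ) ∣ x ^ p - y ^ p) (hp : 0 < p) : ((l ^ k : ℕ) : ℤ) ∣ x - y := by
  have hlk : (l : ℤ) ∣ ((l ^ k : ℕ) : ℤ) := by
    exact_mod_cast dvd_pow_self l hk.ne'
  have hprime : Prime (l : ℤ) := Nat.prime_iff_prime_int.1 hl
  have hy : ¬ (l : ℤ) ∣ y := by
    intro hy
    apply hx
    have h1 : (l : ℤ) ∣ x ^ p := by
      have h2 := hlk.trans h
      have h3 : (l : ℤ) ∣ y ^ p := dvd_pow hy hp.ne'
      have h4 := dvd_add h2 h3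
      rwa [sub_add_cancel] at h4
    exact hprime.dvd_of_dvd_pow h1
  have hu : ∀ z : ℤ, ¬ (l : ℤ) ∣ z → IsUnit ((z : ZMod (l ^ k))) := by
    intro z hz
    rw [ZMod.coe_int_isUnit_iff_isCoprime]
    have h1 : IsCoprime (l : ℤ) z := (Prime.coprime_iff_not_dvd hprime).2 hz
    push_cast
    exact h1.pow_left
  obtain ⟨ux, hux⟩ := hu x hx
  obtain ⟨uy, huy⟩ := hu y hy
  have hne : NeZero (l ^ k) := ⟨pow_ne_zero _ hl.ne_zero⟩
  have hcard : (Nat.card (ZMod (l ^ k))ˣ).Coprime p := by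
    rw [Nat.card_eq_fintype_card, ZMod.card_units_eq_totient, Nat.totient_prime_pow hl hk]
    exact Nat.Coprime.mul_left (Nat.Coprime.pow_left _ hlp) hlp'
  have h1 : ux ^ p = uy ^ p := by
    ext
    push_cast
    rw [hux, huy]
    have h2 := (ZMod.intCast_zmod_eq_zero_iff_dvd (x ^ p - y ^ p) (l ^ k)).2 h
    push_cast at h2
    exact sub_eq_zero.1 h2
  have h2 : ux = uy := (powCoprime hcard).injective h1
  rw [← ZMod.intCast_zmod_eq_zero_iff_dvd]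
  push_cast
  rw [← hux, ← huy, h2, sub_self]

theorem bad_dvd (p : ℕ) (hp5 : 5 ≤ p) (b₀ v κ s g t a : ℤ)
    (h : v ^ 2 * luc a ((b₀ * t ^ 2) ^ 2) p =
      s * (g + κ * t ^ p) ^ 2 - 2 * v ^ 2 * (b₀ * t ^ 2) ^ p) : t ^ 4 ∣ v ^ 2 * a ^ p - s * g ^ 2 := by
  obtain ⟨n, rfl⟩ : ∃ n, p = n + 1 := ⟨p - 1, by omega⟩
  obtain ⟨q, hq⟩ := luc_mod a ((b₀ * t ^ 2) ^ 2) n
  obtain ⟨r, hr⟩ : ∃ r, n + 1 = 4 + r := ⟨n - 3, by omega⟩
  have e1 : t ^ (n + 1) = t ^ 4 * t ^ r := by rw [hr, pow_add]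
  have e2 : (b₀ * t ^ 2) ^ (n + 1) = t ^ 4 * (b₀ ^ (n + 1) * t ^ 4 * (t ^ r) ^ 2) := by
    rw [mul_pow, ← pow_mul, mul_comm 2, pow_mul, e1]
    ring
  refine ⟨-(v ^ 2 * (b₀ ^ 2 * q)) + s * (2 * g * κ * t ^ r + κ ^ 2 * t ^ 4 * (t ^ r) ^ 2) -
    2 * v ^ 2 * (b₀ ^ (n + 1) * t ^ 4 * (t ^ r) ^ 2), ?_⟩
  rw [e1, e2] at h
  linear_combination h - v ^ 2 * hq

/-- two parameters cannot both be bad -/
theorem two_bad (p : ℕ) (hp : p.Prime) (hp5 : 5 ≤ p) (b₀ v κ s g : ℤ) (hb : 0 < b₀) (hv : 0 < v)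
    (hs : 0 < s) (h : s * κ ^ 2 ≠ 2 * v ^ 2 * b₀ ^ p) (l k : ℕ) (hl : l.Prime)
    (hlp : Nat.Coprime l p) (hlp' : Nat.Coprime (l - 1) p) (hk : 0 < k) (hlv : ¬ (l : ℤ) ∣ v)
    (hlg : ¬ (l : ℤ) ∣ s * g ^ 2) (t t' : ℤ) (ht : 0 < t) (ht' : 0 < t')
    (hM : ((l ^ k : ℕ) : ℤ) ∣ t ^ 4) (hM' : ((l ^ k : ℕ) : ℤ) ∣ t' ^ 4)
    (hsz : 2 * b₀ * (t ^ 2 + t' ^ 2) < ((l ^ k : ℕ) : ℤ))
    (hR : (2 * v ^ 2 * p * b₀ ^ p + 2 * s * |g * κ| + s * g ^ 2) * t ^ 2 < t' ^ 2)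
    (h1 : Bad p b₀ v κ s g t) (h2 : Bad p b₀ v κ s g t') : False := by
  obtain ⟨α, a, ha, hB, hα⟩ := h1
  obtain ⟨α', a', ha', hB', hα'⟩ := h2
  have hprime : Prime (l : ℤ) := Nat.prime_iff_prime_int.1 hl
  have hlk : (l : ℤ) ∣ ((l ^ k : ℕ) : ℤ) := by
    exact_mod_cast dvd_pow_self l hk.ne'
  have hbt : (0 : ℝ) ≤ b₀ * t ^ 2 := by positivity
  have hbt' : (0 : ℝ) ≤ b₀ * t' ^ 2 := by positivity
  -- the congruences
  have e1 : v ^ 2 * luc a ((b₀ * t ^ 2) ^ 2) p =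
      s * (g + κ * t ^ p) ^ 2 - 2 * v ^ 2 * (b₀ * t ^ 2) ^ p := by
    rw [luc_re α a _ ha hB p] at hα
    exact_mod_cast hα
  have e2 : v ^ 2 * luc a' ((b₀ * t' ^ 2) ^ 2) p =
      s * (g + κ * t' ^ p) ^ 2 - 2 * v ^ 2 * (b₀ * t' ^ 2) ^ p := by
    have := hα'
    rw [luc_re α' a' _ ha' hB' p] at this
    exact_mod_cast this
  have d1 := hM.trans (bad_dvd p hp5 b₀ v κ s g t a e1)
  have d2 := hM'.trans (bad_dvd p hp5 b₀ v κ s g t' a' e2)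
  have d3 : ((l ^ k : ℕ) : ℤ) ∣ v ^ 2 * (a ^ p - a' ^ p) := by
    have := dvd_sub d1 d2
    have e : v ^ 2 * (a ^ p - a' ^ p) = v ^ 2 * a ^ p - s * g ^ 2 - (v ^ 2 * a' ^ p - s * g ^ 2) := by
      ring
    rw [e]
    exact this
  have hcop : IsCoprime ((l ^ k : ℕ) : ℤ) (v ^ 2) := by
    push_cast
    exact ((Prime.coprime_iff_not_dvd hprime).2 hlv).pow
  have d4 : ((l ^ k : ℕ) : ℤ) ∣ a ^ p - a' ^ p := hcop.dvd_of_dvd_mul_left d3
  have hla : ¬ (l : ℤ) ∣ a := by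
    intro hla
    apply hlg
    have h3 := hlk.trans d1
    have h4 : (l : ℤ) ∣ v ^ 2 * a ^ p := Dvd.dvd.mul_left (dvd_pow hla (by omega)) _
    have h5 := dvd_sub h4 h3
    rwa [sub_sub_cancel] at h5
  have d5 := pow_inj p l k hl hlp hlp' hk a a' hla d4 (by omega)
  -- the sizes
  have s1 : |a| ≤ 2 * (b₀ * t ^ 2) := by
    have := abs_tr_le α a (b₀ * t ^ 2) hbt ha (by rw [hB]; push_cast; ring)
    exact_mod_cast this
  have s2 : |a'| ≤ 2 * (b₀ * t' ^ 2) := by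
    have := abs_tr_le α' a' (b₀ * t' ^ 2) hbt' ha' (by rw [hB']; push_cast; ring)
    exact_mod_cast this
  have haa : a = a' := by
    have h3 : |a - a'| < ((l ^ k : ℕ) : ℤ) := by
      have h4 := abs_sub a a'
      linarith
    have h5 := Int.eq_zero_of_abs_lt_dvd d5 h3
    linarith
  subst haa
  have hodd : Odd p := hp.odd_of_ne_two (by omega)
  have s3 : v ^ 2 * (p * (b₀ * t' ^ 2) ^ (p - 1) * |a|) ≥
      |s * (g + κ * t' ^ p) ^ 2 - 2 * v ^ 2 * (b₀ * t' ^ 2) ^ p| := by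
    have h3 := re_bound α' a (b₀ * t' ^ 2) hbt' ha' (by rw [hB']; push_cast; ring) p hodd
    have h4 : |(v : ℝ) ^ 2 * (2 * (α' ^ p).re)| ≤ v ^ 2 * (p * (b₀ * t' ^ 2) ^ (p - 1) * |(a : ℝ)|) := by
      rw [abs_mul, abs_of_nonneg (sq_nonneg (v : ℝ))]
      exact mul_le_mul_of_nonneg_left h3 (sq_nonneg _)
    rw [hα'] at h4
    exact_mod_cast h4
  -- the contradiction
  set X : ℤ := t' ^ (2 * p - 2) with hX
  have hX1 : 1 ≤ X := one_le_pow₀ (by linarith)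
  have hXp : t' ^ p ≤ X := pow_le_pow_right₀ (by linarith) (by omega)
  have hX2 : t' ^ (2 * p) = X * t' ^ 2 := by
    rw [hX, ← pow_add]
    congr 1
    omega
  have hX3 : (b₀ * t' ^ 2) ^ (p - 1) * b₀ = b₀ ^ p * X := by
    rw [mul_pow, ← pow_mul, hX]
    have e : 2 * (p - 1) = 2 * p - 2 := by omega
    have e' : b₀ ^ p = b₀ ^ (p - 1) * b₀ := by
      rw [← pow_succ]
      congr 1
      omega
    rw [e, e']
    ring
  have hX4 : (b₀ * t' ^ 2) ^ p = b₀ ^ p * (X * t' ^ 2) := by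
    rw [mul_pow, ← pow_mul, hX2]
  have hX5 : (t' ^ p) ^ 2 = X * t' ^ 2 := by
    rw [← pow_mul, mul_comm p 2, hX2]
  set E : ℤ := s * κ ^ 2 - 2 * v ^ 2 * b₀ ^ p with hE
  have hE0 : E ≠ 0 := sub_ne_zero.2 h
  have hE1 : 1 ≤ |E| := Int.one_le_abs hE0
  have key : s * (g + κ * t' ^ p) ^ 2 - 2 * v ^ 2 * (b₀ * t' ^ 2) ^ p =
      E * (X * t' ^ 2) + (2 * s * (g * κ) * t' ^ p + s * g ^ 2) := by
    rw [hX4, hE]
    linear_combination s * κ ^ 2 * hX5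
  have hbp : 0 ≤ p * b₀ ^ p * v ^ 2 := by positivity
  have u1 : v ^ 2 * (p * (b₀ * t' ^ 2) ^ (p - 1) * |a|) ≤ 2 * v ^ 2 * p * b₀ ^ p * t ^ 2 * X := by
    have h3 : 0 ≤ v ^ 2 * (p * (b₀ * t' ^ 2) ^ (p - 1)) := by positivity
    calc v ^ 2 * (p * (b₀ * t' ^ 2) ^ (p - 1) * |a|)
        = v ^ 2 * (p * (b₀ * t' ^ 2) ^ (p - 1)) * |a| := by ring
      _ ≤ v ^ 2 * (p * (b₀ * t' ^ 2) ^ (p - 1)) * (2 * (b₀ * t ^ 2)) :=
          mul_le_mul_of_nonneg_left s1 h3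
      _ = 2 * v ^ 2 * p * t ^ 2 * ((b₀ * t' ^ 2) ^ (p - 1) * b₀) := by ring
      _ = 2 * v ^ 2 * p * b₀ ^ p * t ^ 2 * X := by rw [hX3]; ring
  have htp : 0 < t' ^ p := by positivity
  have u2 : |2 * s * (g * κ) * t' ^ p + s * g ^ 2| ≤ (2 * s * |g * κ| + s * g ^ 2) * X := by
    refine (abs_add_le _ _).trans ?_
    rw [abs_mul, abs_mul, abs_of_pos htp, abs_of_nonneg (by positivity : 0 ≤ 2 * s),
      abs_of_nonneg (by positivity : 0 ≤ s * g ^ 2), add_mul]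
    have h3 : 0 ≤ 2 * s * |g * κ| := by positivity
    have h4 : 0 ≤ s * g ^ 2 := by positivity
    nlinarith [mul_le_mul_of_nonneg_left hXp h3, mul_le_mul_of_nonneg_left hX1 h4]
  have u3 : X * t' ^ 2 ≤ |E * (X * t' ^ 2)| := by
    rw [abs_mul, abs_of_nonneg (by positivity : 0 ≤ X * t' ^ 2)]
    have h3 : 0 ≤ X * t' ^ 2 := by positivity
    nlinarith
  have u4 : |E * (X * t' ^ 2)| ≤ |E * (X * t' ^ 2) + (2 * s * (g * κ) * t' ^ p + s * g ^ 2)| +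
      |2 * s * (g * κ) * t' ^ p + s * g ^ 2| := by
    have := abs_sub (E * (X * t' ^ 2) + (2 * s * (g * κ) * t' ^ p + s * g ^ 2))
      (2 * s * (g * κ) * t' ^ p + s * g ^ 2)
    rwa [add_sub_cancel_right] at this
  rw [key] at s3
  have u5 : X * t' ^ 2 ≤ X * ((2 * v ^ 2 * p * b₀ ^ p + 2 * s * |g * κ| + s * g ^ 2) * t ^ 2) := by
    have h3 : (2 * s * |g * κ| + s * g ^ 2) * X ≤ (2 * s * |g * κ| + s * g ^ 2) * X * t ^ 2 := by
      have h4 : 0 ≤ (2 * s * |g * κ| + s * g ^ 2) * X := by positivity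
      have h5 : 1 ≤ t ^ 2 := one_le_pow₀ (by linarith)
      nlinarith
    nlinarith
  have u6 := le_of_mul_le_mul_left u5 (by linarith)
  linarith

/-- two of the parameters `u L ^ N`, `u L ^ N'` cannot both be bad -/
theorem two_bad_pow (p : ℕ) (hp : p.Prime) (hp5 : 5 ≤ p) (b₀ v κ s g : ℤ) (hb : 0 < b₀)
    (hv : 0 < v) (hs : 0 < s) (h : s * κ ^ 2 ≠ 2 * v ^ 2 * b₀ ^ p) (l e : ℕ) (hl : l.Prime)
    (hlp : Nat.Coprime l p) (hlp' : Nat.Coprime (l - 1) p) (he : 0 < e) (hlv : ¬ (l : ℤ) ∣ v)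
    (hlg : ¬ (l : ℤ) ∣ s * g ^ 2) (u : ℤ) (hu : 0 < u)
    (h4 : 4 * b₀ * u ^ 2 < ((l ^ e : ℕ) : ℤ))
    (hC : 2 * v ^ 2 * p * b₀ ^ p + 2 * s * |g * κ| + s * g ^ 2 < ((l ^ e : ℕ) : ℤ)) (N N' : ℕ)
    (hN : 3 ≤ N) (hNN : N < N') (hNN' : N' ≤ N + 2)
    (h1 : Bad p b₀ v κ s g (u * ((l ^ e : ℕ) : ℤ) ^ N))
    (h2 : Bad p b₀ v κ s g (u * ((l ^ e : ℕ) : ℤ) ^ N')) : False := by
  set L : ℤ := ((l ^ e : ℕ) : ℤ) with hL
  have hL1 : 1 < L := by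
    have : 1 < l ^ e := Nat.one_lt_pow he.ne' hl.one_lt
    rw [hL]
    exact_mod_cast this
  have hL0 : 0 < L := by linarith
  have hk : ((l ^ (e * (4 * N)) : ℕ) : ℤ) = L ^ (4 * N) := by
    rw [hL, pow_mul]
    push_cast
    ring
  have hcast : ∀ j : ℕ, N ≤ j → ((l ^ (e * (4 * N)) : ℕ) : ℤ) ∣ (u * L ^ j) ^ 4 := by
    intro j hj
    rw [hk, mul_pow, ← pow_mul]
    exact Dvd.dvd.mul_left (pow_dvd_pow L (by omega)) _
  refine two_bad p hp hp5 b₀ v κ s g hb hv hs h l (e * (4 * N)) hl hlp hlp'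
    (Nat.mul_pos he (by omega)) hlv hlg (u * L ^ N) (u * L ^ N') (by positivity) (by positivity)
    (hcast N le_rfl) (hcast N' hNN.le) ?_ ?_ h1 h2
  · rw [hk]
    have e1 : L ^ (2 * N) ≤ L ^ (2 * N + 4) := pow_le_pow_right₀ hL1.le (by omega)
    have e2 : L ^ (2 * N') ≤ L ^ (2 * N + 4) := pow_le_pow_right₀ hL1.le (by omega)
    have e3 : L * L ^ (2 * N + 4) ≤ L ^ (4 * N) := by
      rw [← pow_succ']
      exact pow_le_pow_right₀ hL1.le (by omega)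
    have e4 : 2 * b₀ * ((u * L ^ N) ^ 2 + (u * L ^ N') ^ 2) =
        2 * b₀ * u ^ 2 * (L ^ (2 * N) + L ^ (2 * N')) := by
      ring
    rw [e4]
    have e5 : 0 ≤ 2 * b₀ * u ^ 2 := by positivity
    have e6 : 2 * b₀ * u ^ 2 * (L ^ (2 * N) + L ^ (2 * N')) ≤
        2 * b₀ * u ^ 2 * (2 * L ^ (2 * N + 4)) := mul_le_mul_of_nonneg_left (by linarith) e5
    have e7 : 0 < L ^ (2 * N + 4) := by positivity
    have e8 : 4 * b₀ * u ^ 2 * L ^ (2 * N + 4) < L * L ^ (2 * N + 4) :=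
      mul_lt_mul_of_pos_right h4 e7
    linarith
  · have e1 : L ^ (2 * N + 2) ≤ L ^ (2 * N') := pow_le_pow_right₀ hL1.le (by omega)
    have e2 : (u * L ^ N) ^ 2 = u ^ 2 * L ^ (2 * N) := by ring
    have e3 : (u * L ^ N') ^ 2 = u ^ 2 * L ^ (2 * N') := by ring
    rw [e2, e3]
    have e4 : 0 < u ^ 2 * L ^ (2 * N) := by positivity
    have e5 : u ^ 2 * L ^ (2 * N + 2) ≤ u ^ 2 * L ^ (2 * N') :=
      mul_le_mul_of_nonneg_left e1 (by positivity)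
    have e6 : u ^ 2 * L ^ (2 * N + 2) = L ^ 2 * (u ^ 2 * L ^ (2 * N)) := by ring
    have e7 : L ≤ L ^ 2 := by nlinarith
    have e8 : (2 * v ^ 2 * p * b₀ ^ p + 2 * s * |g * κ| + s * g ^ 2) * (u ^ 2 * L ^ (2 * N)) <
        L ^ 2 * (u ^ 2 * L ^ (2 * N)) := mul_lt_mul_of_pos_right (by linarith) e4
    linarith

theorem tail (p : ℕ) (hp : p.Prime) (hp5 : 5 ≤ p) (b₀ v κ g₁ g₂ s₁ s₂ m t₁ : ℤ) (hb : 0 < b₀)
    (hv : 0 < v) (hg₁ : g₁ ≠ 0) (hg₂ : g₂ ≠ 0) (hs₁ : 0 < s₁) (hs₂ : 0 < s₂)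
    (h₁ : s₁ * κ ^ 2 ≠ 2 * v ^ 2 * b₀ ^ p) (h₂ : s₂ * κ ^ 2 ≠ 2 * v ^ 2 * b₀ ^ p) (hm : 0 < m)
    (ht : IsCoprime t₁ m) (T₀ : ℤ) :
    ∃ t : ℤ, T₀ < t ∧ 0 < t ∧ t ≡ t₁ [ZMOD m] ∧ ¬ Bad p b₀ v κ s₁ g₁ t ∧
      ¬ Bad p b₀ v κ s₂ g₂ t := by
  obtain ⟨u, hu, hut⟩ : ∃ u : ℤ, 0 < u ∧ u ≡ t₁ [ZMOD m] := by
    refine ⟨t₁ + m * (|t₁| + 1), ?_, ?_⟩
    · have h1 := neg_abs_le t₁
      have h2 := abs_nonneg t₁
      nlinarith
    · exact (Int.modEq_iff_dvd.2 ⟨-(|t₁| + 1), by ring⟩)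
  set C₁ : ℤ := 2 * v ^ 2 * p * b₀ ^ p + 2 * s₁ * |g₁ * κ| + s₁ * g₁ ^ 2 with hC₁
  set C₂ : ℤ := 2 * v ^ 2 * p * b₀ ^ p + 2 * s₂ * |g₂ * κ| + s₂ * g₂ ^ 2 with hC₂
  have c1 : 0 ≤ C₁ := by positivity
  have c2 : 0 ≤ C₂ := by positivity
  have c3 : 0 < s₁ * g₁ ^ 2 := by positivity
  have c4 : 0 < s₂ * g₂ ^ 2 := by positivity
  have c5 : 0 ≤ |T₀| := abs_nonneg T₀
  have c6 : 0 < 4 * b₀ * u ^ 2 := by positivity
  set B : ℤ := p + v + s₁ * g₁ ^ 2 + s₂ * g₂ ^ 2 + m + 4 * b₀ * u ^ 2 + C₁ + C₂ + |T₀| with hB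
  have hp2 : Nat.Coprime 2 p := by
    rw [Nat.coprime_primes Nat.prime_two hp]
    omega
  obtain ⟨l, hlB, hl, hlmod⟩ := Nat.forall_exists_prime_gt_and_modEq B.natAbs hp.ne_zero hp2
  have hpz : (0 : ℤ) < p := by exact_mod_cast hp.pos
  have hB0 : 0 < B := by linarith
  have hlB' : B < (l : ℤ) := by
    have h1 : ((B.natAbs : ℕ) : ℤ) < (l : ℤ) := by exact_mod_cast hlB
    rwa [Int.natAbs_of_nonneg hB0.le] at h1
  have hnd : ∀ x : ℤ, 0 < x → x ≤ B → ¬ (l : ℤ) ∣ x := by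
    intro x hx hxB hd
    have := Int.le_of_dvd hx hd
    linarith
  have hlp : Nat.Coprime l p := by
    rw [Nat.coprime_primes hl hp]
    intro h
    have : (l : ℤ) = p := by exact_mod_cast h
    linarith
  have hl1 : 1 < l := hl.one_lt
  have hlp' : Nat.Coprime (l - 1) p := by
    rw [Nat.coprime_comm, hp.coprime_iff_not_dvd]
    intro hd
    have h1 : (p : ℤ) ∣ ((l - 1 : ℕ) : ℤ) := by exact_mod_cast hd
    have h2 : (p : ℤ) ∣ (l : ℤ) - 2 := by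
      have := (Nat.modEq_iff_dvd.1 hlmod.symm)
      exact_mod_cast this
    have h3 : ((l - 1 : ℕ) : ℤ) = (l : ℤ) - 1 := by
      push_cast [hl1.le]
      ring
    rw [h3] at h1
    have h4 := dvd_sub h1 h2
    have h5 : (l : ℤ) - 1 - ((l : ℤ) - 2) = 1 := by ring
    rw [h5] at h4
    have h6 := Int.le_of_dvd one_pos h4
    have h7 : (5 : ℤ) ≤ p := by exact_mod_cast hp5
    linarith
  have hM0 : 0 < m.natAbs := Int.natAbs_pos.2 hm.ne'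
  set e : ℕ := Nat.totient m.natAbs with he
  have he0 : 0 < e := Nat.totient_pos.2 hM0
  have hlm : Nat.Coprime l m.natAbs := by
    rw [hl.coprime_iff_not_dvd]
    intro hd
    exact hnd m hm (by linarith) (Int.natCast_dvd.2 hd)
  have hL1 : ((l ^ e : ℕ) : ℤ) ≡ 1 [ZMOD m] := by
    have h1 := Nat.ModEq.pow_totient hlm
    have h2 := (Int.natCast_modEq_iff.2 h1)
    rw [Int.natAbs_of_nonneg hm.le] at h2
    exact_mod_cast h2
  have hlL : (l : ℤ) ≤ ((l ^ e : ℕ) : ℤ) := by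
    exact_mod_cast Nat.le_self_pow he0.ne' l
  have hlL1 : 1 ≤ ((l ^ e : ℕ) : ℤ) := by
    have : (0 : ℤ) < l := by linarith
    linarith
  have key : ∀ N : ℕ, 3 ≤ N → ¬ (¬ Bad p b₀ v κ s₁ g₁ (u * ((l ^ e : ℕ) : ℤ) ^ N) ∧
      ¬ Bad p b₀ v κ s₂ g₂ (u * ((l ^ e : ℕ) : ℤ) ^ N)) ∨
      ∃ t : ℤ, T₀ < t ∧ 0 < t ∧ t ≡ t₁ [ZMOD m] ∧ ¬ Bad p b₀ v κ s₁ g₁ t ∧
        ¬ Bad p b₀ v κ s₂ g₂ t := by
    intro N hN
    by_cases h : (¬ Bad p b₀ v κ s₁ g₁ (u * ((l ^ e : ℕ) : ℤ) ^ N) ∧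
      ¬ Bad p b₀ v κ s₂ g₂ (u * ((l ^ e : ℕ) : ℤ) ^ N))
    · right
      refine ⟨u * ((l ^ e : ℕ) : ℤ) ^ N, ?_, by positivity, ?_, h.1, h.2⟩
      · have h1 : ((l ^ e : ℕ) : ℤ) ≤ ((l ^ e : ℕ) : ℤ) ^ N := by
          exact le_self_pow₀ hlL1 (by omega)
        have h2 : T₀ ≤ |T₀| := le_abs_self T₀
        nlinarith
      · have h1 := (hL1.pow N).mul_left u
        rw [one_pow, mul_one] at h1
        exact h1.trans hut
    · exact Or.inl h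
  have pair₁ := two_bad_pow p hp hp5 b₀ v κ s₁ g₁ hb hv hs₁ h₁ l e hl hlp hlp' he0
    (hnd v hv (by linarith)) (hnd _ c3 (by linarith)) u hu (by linarith) (by linarith)
  have pair₂ := two_bad_pow p hp hp5 b₀ v κ s₂ g₂ hb hv hs₂ h₂ l e hl hlp hlp' he0
    (hnd v hv (by linarith)) (hnd _ c4 (by linarith)) u hu (by linarith) (by linarith)
  rcases key 3 le_rfl with k3 | k3
  swap
  · exact k3
  rcases key 4 (by norm_num) with k4 | k4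
  swap
  · exact k4
  rcases key 5 (by norm_num) with k5 | k5
  swap
  · exact k5
  exfalso
  rw [not_and_or, not_not, not_not] at k3 k4 k5
  rcases k3 with k3 | k3 <;> rcases k4 with k4 | k4 <;> rcases k5 with k5 | k5
  · exact pair₁ 3 4 le_rfl (by norm_num) (by norm_num) k3 k4
  · exact pair₁ 3 4 le_rfl (by norm_num) (by norm_num) k3 k4
  · exact pair₁ 3 5 le_rfl (by norm_num) (by norm_num) k3 k5
  · exact pair₂ 4 5 (by norm_num) (by norm_num) (by norm_num) k4 k5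
  · exact pair₁ 4 5 (by norm_num) (by norm_num) (by norm_num) k4 k5
  · exact pair₂ 3 5 le_rfl (by norm_num) (by norm_num) k3 k5
  · exact pair₂ 3 4 le_rfl (by norm_num) (by norm_num) k3 k4
  · exact pair₂ 3 4 le_rfl (by norm_num) (by norm_num) k3 k4

end Pool.Agent.Lib.MP3650db.N2
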