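import Pool.Agent.Lib.MP_3650db_nt.Mg.G003
import Pool.Agent.Lib.MP_3650db_nt.N2.Tail
import Pool.Agent.Lib.MP_3650db_nt.All

set_option autoImplicit false

/-!
Iizuka's conjecture for `n = 2` and every prime `p`.

For a Pythagorean triple `w ^ 2 + v ^ 2 = z ^ 2` with `w < v` put `A = w ^ 2 - v ^ 2`, `b₀ = -A`,
`c = b₀ ^ ((p - 1) / 2)`, `v * k = 1 + c * t ^ p` and `d = A * k ^ 2`.  Then
`(A k + v) ^ 2 - w ^ 2 * (A k ^ 2 + 1) = (b₀ t ^ 2) ^ p` and
`(A k + 2 v) ^ 2 - z ^ 2 * (A k ^ 2 + 2) = 2 * (b₀ t ^ 2) ^ p`.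
-/

namespace Pool.Agent.Lib.MP3650db.N2

open NumberField

theorem adjoin_div_eq_top {K : Type} [Field K] [NumberField K] (x : K) (k : ℤ) (hk : k ≠ 0)
    (h : Algebra.adjoin ℚ {x} = ⊤) : Algebra.adjoin ℚ {x / (k : K)} = ⊤ := by
  rw [eq_top_iff, ← h]
  apply Algebra.adjoin_le
  rintro y hy
  rw [Set.mem_singleton_iff] at hy
  subst hy
  have h1 : algebraMap ℚ K (k : ℚ) * (y / (k : K)) = y := by
    have hk' : (k : K) ≠ 0 := by exact_mod_cast hk
    simp
    field_simp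
  have h2 : y / (k : K) ∈ Algebra.adjoin ℚ {y / (k : K)} := Algebra.self_mem_adjoin_singleton ℚ _
  have h3 := Subalgebra.mul_mem (Algebra.adjoin ℚ {y / (k : K)})
    (Subalgebra.algebraMap_mem _ (k : ℚ)) h2
  rw [h1] at h3
  exact h3

theorem two_re_sq (z : ℂ) : 2 * (z ^ 2).re = (2 * z.re) ^ 2 - 2 * Complex.normSq z := by
  rw [Complex.normSq_apply, pow_two z, Complex.mul_re]; ring

/-- the residue class of `t` -/
theorem exists_t0 (p j : ℕ) (hj : p = 2 * j + 1) (w v g : ℤ) (hc : IsCoprime w v)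
    (hg : g ^ p ≡ w [ZMOD v]) (b₀ : ℤ) (hb : b₀ = v ^ 2 - w ^ 2) :
    ∃ t₀ : ℤ, v ∣ 1 + b₀ ^ j * t₀ ^ p := by
  obtain ⟨w', u, hw'⟩ := hc
  -- `w' * w + u * v = 1`
  refine ⟨-(-1) ^ j * (g * w'), ?_⟩
  have h1 : b₀ ≡ -w ^ 2 [ZMOD v] := by
    rw [hb]
    apply Int.ModEq.symm
    rw [Int.modEq_iff_dvd]
    exact ⟨v, by ring⟩
  have h2 : b₀ ^ j ≡ (-w ^ 2) ^ j [ZMOD v] := h1.pow j
  have h3 : (g * w') ^ p ≡ w * w' ^ p [ZMOD v] := by
    rw [mul_pow]
    exact hg.mul_right _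
  have h4 : w * w' ≡ 1 [ZMOD v] := by
    apply Int.ModEq.symm
    rw [Int.modEq_iff_dvd]
    exact ⟨-u, by linear_combination hw'⟩
  have hodd : ((-(-1) ^ j : ℤ)) ^ p = -(-1) ^ j := by
    rcases Nat.even_or_odd j with h | h
    · rw [h.neg_one_pow, hj]
      exact Odd.neg_one_pow ⟨j, by ring⟩
    · rw [h.neg_one_pow]; simp
  have h5 : b₀ ^ j * (-(-1) ^ j * (g * w')) ^ p ≡ -1 [ZMOD v] := by
    rw [mul_pow, hodd]
    calc b₀ ^ j * (-(-1) ^ j * (g * w') ^ p)
        ≡ (-w ^ 2) ^ j * (-(-1) ^ j * (w * w' ^ p)) [ZMOD v] :=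
          h2.mul ((Int.ModEq.refl _).mul h3)
      _ = -((w * w') ^ p) := by
          rw [hj]
          have : ((-w ^ 2) ^ j : ℤ) = (-1) ^ j * w ^ (2 * j) := by
            rw [neg_pow, ← pow_mul]
          rw [this]
          have h6 : ((-1 : ℤ) ^ j) * (-1) ^ j = 1 := by
            rw [← mul_pow]; simp
          calc (-1 : ℤ) ^ j * w ^ (2 * j) * (-(-1) ^ j * (w * w' ^ (2 * j + 1)))
              = -(((-1 : ℤ) ^ j * (-1) ^ j) * (w ^ (2 * j) * w * w' ^ (2 * j + 1))) := by ring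
            _ = -((w * w') ^ (2 * j + 1)) := by rw [h6, mul_pow, pow_succ w]; ring
      _ ≡ -(1 ^ p) [ZMOD v] := (h4.pow p).neg
      _ = -1 := by simp
  have h6 := h5.symm
  rw [Int.modEq_iff_dvd] at h6
  have h7 : 1 + b₀ ^ j * (-(-1) ^ j * (g * w')) ^ p = b₀ ^ j * (-(-1) ^ j * (g * w')) ^ p - -1 := by ring
  rw [h7]
  exact h6

theorem two_ge5 (p : ℕ) (hp : p.Prime) (hp5 : 5 ≤ p) :
    Set.Infinite {d : ℤ | d + 2 < 0 ∧ ∀ i : ℕ, i ≤ 2 →
      ∀ (K : Type) [Field K] [NumberField K],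
        (∃ x : K, x ^ 2 = (((d + (i : ℤ)) : ℤ) : K) ∧ Algebra.adjoin ℚ {x} = ⊤) →
          p ∣ NumberField.classNumber K} := by
  obtain ⟨w, v, z, g, hw0, hwv, hz0, hpy, hcop, hev, hg, hbase⟩ := base p hp hp5
  have hv0 : 0 < v := hw0.trans hwv
  have hodd : Odd p := hp.odd_of_ne_two (by omega)
  obtain ⟨j, hj⟩ := hodd
  set b₀ : ℤ := v ^ 2 - w ^ 2 with hb₀
  have hb0 : 0 < b₀ := by rw [hb₀]; nlinarith
  obtain ⟨t₀, ht₀⟩ := exists_t0 p j hj w v g hcop hg b₀ hb₀
  -- coprimalities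
  have hwodd : Odd w := by
    rcases Int.even_or_odd w with h | h
    · exfalso
      have h1 : IsUnit (2 : ℤ) := hcop.isUnit_of_dvd' h.two_dvd hev.two_dvd
      exact absurd h1 (by decide)
    · exact h
  have hvz : IsCoprime v z := by
    have h1 : IsCoprime v (w ^ 2) := (hcop.symm).pow_right
    have h2 : IsCoprime v (z ^ 2) := by
      rw [← hpy, pow_two v]
      exact (IsCoprime.add_mul_left_right h1 v)
    exact (IsCoprime.pow_right_iff (by norm_num)).1 h2
  have hvwz : IsCoprime v (w * z) := hcop.symm.mul_right hvz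
  have ht₀v : IsCoprime t₀ v := by
    obtain ⟨q, hq⟩ := ht₀
    refine ⟨-(b₀ ^ j * t₀ ^ (p - 1)), q, ?_⟩
    have h1 : t₀ ^ (p - 1) * t₀ = t₀ ^ p := by
      rw [← pow_succ]; congr 1; omega
    linear_combination -(b₀ ^ j) * h1 - hq
  obtain ⟨e, f, hef⟩ := hvwz
  -- `e * v + f * (w * z) = 1`
  set t₁ : ℤ := t₀ * (f * (w * z)) + e * v with ht₁
  have ht₁v : t₁ ≡ t₀ [ZMOD v] := by
    apply Int.ModEq.symm
    rw [Int.modEq_iff_dvd]
    exact ⟨e - e * t₀, by rw [ht₁]; linear_combination t₀ * hef⟩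
  have ht₁wz : t₁ ≡ 1 [ZMOD (w * z)] := by
    apply Int.ModEq.symm
    rw [Int.modEq_iff_dvd]
    exact ⟨t₀ * f - f, by rw [ht₁]; linear_combination hef⟩
  have hc1 : IsCoprime t₁ v := by
    have h1 := ht₁v.symm
    rw [Int.modEq_iff_dvd] at h1
    obtain ⟨q, hq⟩ := h1
    have h2 : t₁ = t₀ + v * q := by linear_combination hq
    rw [h2]
    exact ht₀v.add_mul_left_left q
  have hc2 : IsCoprime t₁ (w * z) := by
    have h1 := ht₁wz.symm
    rw [Int.modEq_iff_dvd] at h1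
    obtain ⟨q, hq⟩ := h1
    have h2 : t₁ = 1 + (w * z) * q := by linear_combination hq
    rw [h2]
    exact isCoprime_one_left.add_mul_left_left q
  set m : ℤ := v * (w * z) with hm
  have hm0 : 0 < m := by positivity
  have hcm : IsCoprime t₁ m := hc1.mul_right hc2
  -- the constants of the tail lemma
  set κ : ℤ := -(b₀ * b₀ ^ j) with hκ
  have hκ2 : κ ^ 2 = b₀ * b₀ ^ p := by rw [hκ, hj]; ring
  have hbp : 0 < b₀ ^ p := by positivity
  have hne1 : (4 : ℤ) * κ ^ 2 ≠ 2 * v ^ 2 * b₀ ^ p := by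
    intro h
    rw [hκ2] at h
    have h1 : (4 * b₀ - 2 * v ^ 2) * b₀ ^ p = 0 := by linear_combination h
    rcases mul_eq_zero.1 h1 with h2 | h2
    · rw [hb₀] at h2
      obtain ⟨v', hv'⟩ := hev
      obtain ⟨w', hw'⟩ := hwodd
      have h3 : v ^ 2 = 2 * w ^ 2 := by linarith
      rw [hv', hw'] at h3
      have h4 : (v' + v') ^ 2 = 4 * v' ^ 2 := by ring
      have h5 : 2 * (2 * w' + 1) ^ 2 = 8 * w' ^ 2 + 8 * w' + 2 := by ring
      rw [h4, h5] at h3
      omega
    · exact hbp.ne' h2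
  have hne2 : (2 : ℤ) * κ ^ 2 ≠ 2 * v ^ 2 * b₀ ^ p := by
    intro h
    rw [hκ2] at h
    have h1 : (2 * b₀ - 2 * v ^ 2) * b₀ ^ p = 0 := by linear_combination h
    rcases mul_eq_zero.1 h1 with h2 | h2
    · rw [hb₀] at h2
      nlinarith
    · exact hbp.ne' h2
  apply Set.infinite_of_forall_exists_lt
  intro a
  obtain ⟨t, htT, ht0, htm, hnb1, hnb2⟩ := tail p hp hp5 b₀ v κ (w ^ 2) (z ^ 2) 4 2 m t₁ hb0 hv0
    (by positivity) (by positivity) (by norm_num) (by norm_num) hne1 hne2 hm0 hcm (v * (|a| + 3))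
  -- the congruences of `t`
  have htv : t ≡ t₀ [ZMOD v] := (htm.of_mul_right _).trans ht₁v
  have htwz : t ≡ 1 [ZMOD (w * z)] := (htm.of_mul_left _).trans ht₁wz
  have hctwz : IsCoprime t (w * z) := by
    have h1 := htwz.symm
    rw [Int.modEq_iff_dvd] at h1
    obtain ⟨q, hq⟩ := h1
    have h2 : t = 1 + (w * z) * q := by linear_combination hq
    rw [h2]
    exact isCoprime_one_left.add_mul_left_left q
  have hctw : IsCoprime t w := hctwz.of_mul_right_left
  have hctz : IsCoprime t z := hctwz.of_mul_right_right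
  have hdvd : v ∣ 1 + b₀ ^ j * t ^ p := by
    have h1 : 1 + b₀ ^ j * t ^ p ≡ 1 + b₀ ^ j * t₀ ^ p [ZMOD v] :=
      (Int.ModEq.refl _).add ((Int.ModEq.refl _).mul (htv.pow p))
    exact h1.dvd_iff.2 ht₀
  obtain ⟨k, hk⟩ := hdvd
  -- `v * k = 1 + c * t ^ p`
  have hcpos : 1 ≤ b₀ ^ j := by
    have : 0 < b₀ ^ j := by positivity
    omega
  have htp : t ≤ t ^ p := by
    calc t = t ^ 1 := (pow_one t).symm
      _ ≤ t ^ p := pow_le_pow_right₀ (by omega) (by omega)
  have hkbig : |a| + 3 < k := by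
    have h1 : v * (|a| + 3) < v * k := by
      rw [← hk]
      nlinarith
    exact lt_of_mul_lt_mul_left h1 hv0.le
  have ha0 : 0 ≤ |a| := abs_nonneg a
  have hk0 : 0 < k := by linarith
  set A : ℤ := w ^ 2 - v ^ 2 with hA
  have hAb : A = -b₀ := by rw [hA, hb₀]; ring
  have hA1 : A ≤ -1 := by omega
  have hkk : k ≤ k ^ 2 := by nlinarith
  have hAk : A * k ^ 2 ≤ -k := by nlinarith
  have hb2 : (b₀ ^ j) ^ 2 * b₀ = b₀ ^ p := by rw [hj]; ring
  have hvk : v * k - 1 = b₀ ^ j * t ^ p := by rw [← hk]; ring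
  have htpp : (t ^ p) ^ 2 = (t ^ 2) ^ p := by rw [← pow_mul, ← pow_mul, mul_comm]
  have hnorm : b₀ * (v * k - 1) ^ 2 = (b₀ * t ^ 2) ^ p := by
    rw [hvk, mul_pow b₀, ← htpp, ← hb2]; ring
  set b : ℤ := b₀ * t ^ 2 with hb
  have hX1 : v * (A * k + v) = w ^ 2 + κ * t ^ p := by
    rw [hκ]
    have : v * (A * k + v) = A * (v * k - 1) + (A + v ^ 2) := by ring
    rw [this, hvk, hAb]
    rw [hb₀]; ring
  have hX2 : v * (A * k + 2 * v) = z ^ 2 + κ * t ^ p := by
    have : v * (A * k + 2 * v) = v * (A * k + v) + v ^ 2 := by ring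
    rw [this, hX1, ← hpy]; ring
  have hbR : (b : ℝ) = b₀ * t ^ 2 := by rw [hb]; push_cast; ring
  -- oddness and coprimality with `b`
  have htodd : Odd t := by
    rcases Int.even_or_odd t with h | h
    · exfalso
      have h1 : (2 : ℤ) ∣ 1 + b₀ ^ j * t ^ p := by
        rw [hk]; exact hev.two_dvd.mul_right k
      have h2 : (2 : ℤ) ∣ b₀ ^ j * t ^ p := (dvd_pow h.two_dvd (by omega)).mul_left _
      have h3 : (2 : ℤ) ∣ 1 := (dvd_add_left h2).1 h1
      exact absurd h3 (by decide)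
    · exact h
  have hb₀odd : Odd b₀ := by
    rw [hb₀]
    exact (hev.pow_of_ne_zero (by norm_num)).sub_odd (hwodd.pow)
  have hbodd : Odd b := by
    rw [hb]; exact hb₀odd.mul (htodd.pow)
  have hc2b : IsCoprime (2 : ℤ) b := by
    obtain ⟨q, hq⟩ := hbodd
    exact ⟨-q, 1, by rw [hq]; ring⟩
  have hvb₀ : IsCoprime v b₀ := by
    rw [hb₀]
    have h1 : IsCoprime v (-(w ^ 2)) := (hcop.symm.pow_right).neg_right
    have h2 : v ^ 2 - w ^ 2 = -(w ^ 2) + v * v := by ring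
    rw [h2]
    exact h1.add_mul_left_right v
  have hX1b : IsCoprime (A * k + v) b := by
    rw [hb]
    apply IsCoprime.mul_right
    · have h1 : A * k + v = v + b₀ * (-k) := by rw [hAb]; ring
      rw [h1]
      exact hvb₀.add_mul_left_left (-k)
    · apply IsCoprime.pow_right
      have h1 : IsCoprime (v * (A * k + v)) t := by
        rw [hX1]
        have h2 : κ * t ^ p = t * (κ * t ^ (p - 1)) := by
          have : t ^ p = t * t ^ (p - 1) := by rw [← pow_succ']; congr 1; omega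
          rw [this]; ring
        rw [h2]
        exact (hctw.symm.pow_left).add_mul_left_left _
      exact h1.of_mul_left_right
  have hX2b : IsCoprime (A * k + 2 * v) b := by
    rw [hb]
    apply IsCoprime.mul_right
    · have h1 : A * k + 2 * v = 2 * v + b₀ * (-k) := by rw [hAb]; ring
      rw [h1]
      have h3 : IsCoprime (2 : ℤ) b₀ := by
        obtain ⟨q, hq⟩ := hb₀odd
        exact ⟨-q, 1, by rw [hq]; ring⟩
      exact (h3.mul_left hvb₀).add_mul_left_left (-k)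
    · apply IsCoprime.pow_right
      have h1 : IsCoprime (v * (A * k + 2 * v)) t := by
        rw [hX2]
        have h2 : κ * t ^ p = t * (κ * t ^ (p - 1)) := by
          have : t ^ p = t * t ^ (p - 1) := by rw [← pow_succ']; congr 1; omega
          rw [this]; ring
        rw [h2]
        exact (hctz.symm.pow_left).add_mul_left_left _
      exact h1.of_mul_left_right
  refine ⟨A * k ^ 2, ⟨by nlinarith [abs_nonneg a], ?_⟩, ?_⟩
  · intro i hi K _ _ hx
    obtain ⟨x, hx2, hxt⟩ := hx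
    interval_cases i
    · -- the fixed field
      apply hbase K
      refine ⟨x / (k : K), ?_, adjoin_div_eq_top x k hk0.ne' hxt⟩
      have hkK : (k : K) ≠ 0 := by exact_mod_cast hk0.ne'
      rw [div_pow, hx2, div_eq_iff (pow_ne_zero 2 hkK)]
      push_cast
      ring
    · by_contra hh
      have hneg : A * k ^ 2 + 1 < 0 := by linarith
      obtain ⟨α, a₁, h1, h2, h3⟩ := crit K x (A * k ^ 2 + 1) hneg (by rw [hx2]; norm_num) hxt p hp hp5
        (2 * (A * k + v)) (2 * w) b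
        (by
          rw [← hnorm, hb₀, hA]; ring)
        (IsCoprime.mul_left hc2b hX1b) hh
      apply hnb1
      refine ⟨α ^ 2, a₁ ^ 2 - 2 * b, ?_, ?_, ?_⟩
      · rw [two_re_sq, h1, h2]; push_cast; ring
      · rw [map_pow, h2, hbR]; push_cast; ring
      · have h4 : 2 * ((α ^ 2) ^ p).re = (2 * (α ^ p).re) ^ 2 - 2 * (b : ℝ) ^ p := by
          rw [← pow_mul, mul_comm 2 p, pow_mul, two_re_sq, map_pow, h2]
        rw [h4, h3, ← hX1, hbR]
        push_cast
        ring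
    · by_contra hh
      have hneg : A * k ^ 2 + 2 < 0 := by linarith
      obtain ⟨α, a₁, h1, h2, h3⟩ := crit K x (A * k ^ 2 + 2) hneg (by rw [hx2]; norm_num) hxt p hp hp5
        (2 * ((A * k + 2 * v) ^ 2 - b ^ p)) (2 * ((A * k + 2 * v) * z)) (b ^ 2)
        (by
          have h5 : (A * k + 2 * v) ^ 2 - z ^ 2 * (A * k ^ 2 + 2) = 2 * b ^ p := by
            rw [← hnorm, hb₀, ← hpy, hA]; ring
          have h6 : (b ^ 2) ^ p = (b ^ p) ^ 2 := by rw [← pow_mul, ← pow_mul, mul_comm]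
          rw [h6]
          linear_combination (4 * (A * k + 2 * v) ^ 2) * h5)
        (by
          apply IsCoprime.pow_right
          apply IsCoprime.mul_left hc2b
          have h7 : b ^ p = b * b ^ (p - 1) := by rw [← pow_succ']; congr 1; omega
          have h8 : (A * k + 2 * v) ^ 2 - b ^ p = (A * k + 2 * v) ^ 2 + b * (-b ^ (p - 1)) := by
            rw [h7]; ring
          rw [h8]
          exact (hX2b.pow_left).add_mul_left_left _) hh
      apply hnb2
      refine ⟨α, a₁, h1, ?_, ?_⟩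
      · rw [h2]
      · rw [h3, ← hX2]
        push_cast
        rw [hbR]
        ring
  · have h1 : -|a| ≤ a := neg_abs_le a
    linarith

/-- Iizuka's conjecture for `n = 2` and all primes. -/
theorem two_all (p : ℕ) (hp : p.Prime) :
    Set.Infinite {d : ℤ | d + 2 < 0 ∧ ∀ i : ℕ, i ≤ 2 →
      ∀ (K : Type) [Field K] [NumberField K],
        (∃ x : K, x ^ 2 = (((d + (i : ℤ)) : ℤ) : K) ∧ Algebra.adjoin ℚ {x} = ⊤) →
          p ∣ NumberField.classNumber K} := by
  rcases Nat.lt_or_ge p 5 with h | h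
  · have h23 : p ∣ 3 * 2 ^ 1 := by
      have h2 := hp.two_le
      interval_cases p
      · norm_num
      · norm_num
      · exact absurd hp (by norm_num)
    refine (three_two_pow_all 2 1).mono ?_
    rintro d ⟨h1, h2⟩
    exact ⟨h1, fun i hi K _ _ hx => h23.trans (h2 i hi K hx)⟩
  · exact two_ge5 p hp h

end Pool.Agent.Lib.MP3650db.N2
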